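import Pool.Agent.Helper18.FM.GoalsA
import Pool.Agent.Helper27.TRB.Seq

/-!
# FM (MP_97d78d_ag), goal FFM: the form `χ` is closed, the twisted background is in the family
-/

open Complex Metric Set Filter Topology MeasureTheory
open scoped ContDiff ComplexConjugate ComplexOrder Manifold Matrix

namespace Pool.Agent.Helper33.FM.FFM

open Pool.Agent.Helper95.Lin Pool.Agent.Helper16.Abund Pool.Agent.Helper92.Orb
  Pool.Agent.Helper10.SP Pool.Agent.Helper95.RK Pool.Agent.Helper57.HS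
  Pool.Agent.Helper15.HS Pool.Agent.Helper15.GS Pool.Agent.Helper57.RBC
  Pool.Agent.Helper57.HX Pool.Agent.Helper16.HS.AYTP Pool.Agent.Helper18.FM
open Pool.Agent.Helper27.TRB (tw chf_congr invH_congr smul_tw)

universe u

theorem t (hWIRT : S_WIRT) (hRHOI : S_RHOI.{u}) : Pool.Agent.Helper18.FM.S_FFM.{u} := by
  intro n m T G _ R H σ h χ c ψ D
  have hT := D.ket.et.isOpen
  obtain ⟨hr1, hr2, -, hr4, -⟩ := hRHOI T R H D.ket.et (her_ket D.ket)
  have hpsi : InvF T R (fun y => c * ψ y) := by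
    refine ⟨contDiffOn_const.mul D.psi.1, fun γ x y hR => ?_⟩
    have h1 := D.psi.2 γ x y hR
    simp only
    rw [h1]
  obtain ⟨hp1, hp2⟩ := hr4 (fun y => c * ψ y) hpsi
  have hchf : CHF χ T := chf_congr hT (fun x hx => (D.chi' x hx).symm)
    (Pool.Agent.Helper97.HS.chf_ad hT (Pool.Agent.Helper97.HS.chf_sm hT hr1 c) hp1)
  have hket : ∀ (H' : Cn n → Matrix (Fin n) (Fin n) ℂ) (ε : ℝ), KEt T R H' → 0 < ε →
      KEt T R (tw χ ε H') := by
    intro H' ε hH' hε
    have h1 := Pool.Agent.Helper61.GS.ket_add hH'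
      (Pool.Agent.Helper97.HS.chf_sm hT hchf ε⁻¹)
      (Pool.Agent.Helper97.HS.invH_sm D.pf.inv ((ε⁻¹ : ℝ) : ℂ))
      fun x hx => (D.pf.psd x hx).smul (Complex.zero_le_real.2 (inv_pos.2 hε).le)
    exact h1
  refine ⟨hchf, fun H' ε hH' hε => ⟨hket H' ε hH' hε, fun x => smul_tw χ H' hε x⟩, ?_⟩
  intro N φ H' hF ε hε
  refine ⟨hket H' ε hF.ket hε, ?_, ?_, ?_⟩
  · have h1 := hF.nn
    have h2 := D.c0
    positivity
  · refine ⟨hF.inv.1.add (contDiffOn_const.mul hpsi.1), fun γ x y hR => ?_⟩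
    have h0 := hF.inv.2 γ x y hR
    have h1 := D.psi.2 γ x y hR
    simp only
    rw [h0, h1]
  · intro x hx
    have e1 : (fun y => φ y + ε⁻¹ * (c * ψ y)) = fun y => 1 * φ y + ε⁻¹ * (c * ψ y) := by
      funext y; ring
    rw [e1, Pool.Agent.Helper94.HS.LM_lin hWIRT hT hF.inv.1 hpsi.1 1 ε⁻¹ hx]
    unfold tw
    rw [hF.eq x hx, D.chi' x hx]
    push_cast
    module

end Pool.Agent.Helper33.FM.FFM
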